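import Pool.Agent.Y546.WQ.Stm3
import Pool.Agent.Y145.DI.Stick

/-!
# Project WH, statement JNA: the norms of the Jacobi sums `J(T^b, T^(a b))`
-/

set_option autoImplicit false

namespace Pool.Agent.Y510.WQ

open Finset Pool.Agent.Y145.DI Pool.Agent.Y546.WQ

theorem add_mod_ite {p x y : ℕ} (hx : x < p) (hy : y < p) (h : (x + y) % p ≠ 0) :
    x + y = (x + y) % p + if p < x + y then p else 0 := by
  rcases lt_trichotomy (x + y) p with h1 | h1 | h1
  · rw [Nat.mod_eq_of_lt h1, if_neg (by omega), add_zero]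
  · rw [h1, Nat.mod_self] at h
    exact absurd rfl h
  · have h3 : (x + y) % p = x + y - p := by
      rw [Nat.mod_eq_sub_mod h1.le, Nat.mod_eq_of_lt (by omega)]
    rw [if_pos h1, h3]
    omega

theorem mainJNA : S_JNA := by
  intro q _ E _ _ _ _ p F hp hp2 hF hN hF0
  obtain ⟨w, ψ, hψ, hψc, hw, ho⟩ := exists_wp (p := q) E
  obtain ⟨hq0, -⟩ := norm_p_lt (p := q)
  set T₀ := w ^ ((Fintype.card E - 1) / p) with hT₀
  have hQ1 : 1 < Fintype.card E := Fintype.one_lt_card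
  have hTo : orderOf T₀ = p := by
    have hd : (Fintype.card E - 1) / p ≠ 0 := by
      have := Nat.div_pos (Nat.le_of_dvd (by omega) hN) hp.pos
      omega
    rw [hT₀, orderOf_pow_of_dvd hd (by rw [ho]; exact Nat.div_dvd_of_dvd hN), ho,
      Nat.div_div_self hN (by omega)]
  have hTi : orderOf T₀⁻¹ = p := by rw [orderOf_inv, hTo]
  refine ⟨T₀⁻¹, hTi, ?_⟩
  intro a b ha0 ha hb0 hb
  have hG : ∀ c, 0 < c → c < p → ‖gaussSum (T₀⁻¹ ^ c) ψ‖ ^ p =
      ‖((q : ℕ) : PadicAlgCl q)‖ ^ expo q p F c := by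
    intro c hc0 hc
    rw [inv_pow]
    exact norm_gauss_eq w ψ hψ hψc hw ho hF hN hF0 c hc0 hc
  have hpq : ¬ p ∣ q := by
    intro h
    have h1 : p ∣ Fintype.card E := by
      rw [hF]
      exact dvd_pow h hF0.ne'
    have h2 : p ∣ 1 := by
      have h3 := Nat.dvd_sub h1 hN
      rwa [Nat.sub_sub_self hQ1.le] at h3
    exact hp.one_lt.ne' (Nat.dvd_one.1 h2)
  have hndvd : ∀ x, 0 < x → x < p → ¬ p ∣ x := fun x hx0 hx h =>
    absurd (Nat.le_of_dvd hx0 h) (by omega)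
  have hpab : ¬ p ∣ a * b := by
    rw [hp.dvd_mul]
    rintro (h | h)
    · exact hndvd a ha0 (by omega) h
    · exact hndvd b hb0 hb h
  have hpb : ¬ p ∣ (1 + a) * b := by
    rw [hp.dvd_mul]
    rintro (h | h)
    · exact hndvd (1 + a) (by omega) (by omega) h
    · exact hndvd b hb0 hb h
  obtain ⟨c2, hc2⟩ : ∃ c2, c2 = (a * b) % p := ⟨_, rfl⟩
  obtain ⟨c3, hc3⟩ : ∃ c3, c3 = ((1 + a) * b) % p := ⟨_, rfl⟩
  have hc20 : 0 < c2 := by
    rw [hc2]
    exact Nat.pos_of_ne_zero fun h => hpab (Nat.dvd_of_mod_eq_zero h)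
  have hc2p : c2 < p := by
    rw [hc2]
    exact Nat.mod_lt _ hp.pos
  have hc30 : 0 < c3 := by
    rw [hc3]
    exact Nat.pos_of_ne_zero fun h => hpb (Nat.dvd_of_mod_eq_zero h)
  have hc3p : c3 < p := by
    rw [hc3]
    exact Nat.mod_lt _ hp.pos
  have hT2 : T₀⁻¹ ^ (a * b) = T₀⁻¹ ^ c2 := by
    rw [hc2]
    have h2 := pow_mod_orderOf T₀⁻¹ (a * b)
    rw [hTi] at h2
    exact h2.symm
  have hTT : T₀⁻¹ ^ b * T₀⁻¹ ^ c2 = T₀⁻¹ ^ c3 := by
    rw [← hT2, ← pow_add, hc3]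
    have h2 := pow_mod_orderOf T₀⁻¹ ((1 + a) * b)
    rw [hTi] at h2
    rw [h2]
    congr 1
    ring
  have hne : T₀⁻¹ ^ b * T₀⁻¹ ^ c2 ≠ 1 := by
    rw [hTT]
    intro h
    have h1 := orderOf_dvd_of_pow_eq_one h
    rw [hTi] at h1
    exact hndvd c3 hc30 hc3p h1
  rw [hT2]
  have hJ := jacobiSum_mul_nontrivial hne ψ
  rw [hTT] at hJ
  have h1 : ‖gaussSum (T₀⁻¹ ^ c3) ψ‖ ^ p * ‖jacobiSum (T₀⁻¹ ^ b) (T₀⁻¹ ^ c2)‖ ^ p =
      ‖gaussSum (T₀⁻¹ ^ b) ψ‖ ^ p * ‖gaussSum (T₀⁻¹ ^ c2) ψ‖ ^ p := by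
    rw [← mul_pow, ← mul_pow, ← norm_mul, ← norm_mul, hJ]
  rw [hG c3 hc30 hc3p, hG b hb0 hb, hG c2 hc20 hc2p, ← pow_add] at h1
  have h2 : expo q p F b + expo q p F c2 = expo q p F c3 +
      ((Finset.range F).filter fun s =>
        p < (b * q ^ s) % p + (a * b * q ^ s) % p).card * p := by
    unfold expo
    rw [card_filter, sum_mul, ← sum_add_distrib, ← sum_add_distrib]
    refine sum_congr rfl fun s _ => ?_
    have e2 : (c2 * q ^ s) % p = (a * b * q ^ s) % p := by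
      rw [hc2, Nat.mod_mul_mod]
    have e3 : (c3 * q ^ s) % p = ((b * q ^ s) % p + (a * b * q ^ s) % p) % p := by
      rw [hc3, Nat.mod_mul_mod, ← Nat.add_mod]
      congr 1
      ring
    have h4 : ((b * q ^ s) % p + (a * b * q ^ s) % p) % p ≠ 0 := by
      rw [← e3, hc3, Nat.mod_mul_mod]
      intro h
      have h5 := Nat.dvd_of_mod_eq_zero h
      rw [hp.dvd_mul] at h5
      rcases h5 with h5 | h5
      · exact hpb h5
      · exact hpq (hp.dvd_of_dvd_pow h5)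
    rw [e2, e3]
    refine (add_mod_ite (Nat.mod_lt _ hp.pos) (Nat.mod_lt _ hp.pos) h4).trans ?_
    congr 1
    split_ifs
    · rw [one_mul]
    · rw [zero_mul]
  rw [h2, pow_add, pow_mul] at h1
  have h3 := mul_left_cancel₀ (pow_pos hq0 _).ne' h1
  exact (pow_left_inj₀ (norm_nonneg _) (pow_nonneg hq0.le _) hp.ne_zero).1 h3

end Pool.Agent.Y510.WQ
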