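import Pool.Agent.Y546.WQ.Stm3
import Pool.Agent.Y587.WQ.POLB

/-!
# Project WH, statement POLBA: `f` is palindromic if the first `m` indices are regular
-/

set_option autoImplicit false

namespace Pool.Agent.Y510.WQ

open Polynomial Pool.Agent.Y546.WQ Pool.Agent.Y587.WQ

theorem mainPOLBA : S_COREA → S_POLBA := by
  intro hcore p hp m f hpm hf h0 hm h1 hrel hreg
  have hp2 : p ≠ 2 := by omega
  have hfr : (f.reflect m).natDegree ≤ m := by
    refine natDegree_reflect_le.trans ?_
    exact max_le le_rfl hf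
  have hr1 : (f.reflect m).eval 1 = f.eval 1 := eval_reflect_one hf
  obtain ⟨s, hsp, hs⟩ : ∃ s : ℕ, s < p ∧ (s : ZMod p) * f.eval 1 =
      m * f.eval 1 + (derivative f).eval 1 - (derivative (f.reflect m)).eval 1 := by
    refine ⟨((m * f.eval 1 + (derivative f).eval 1 -
      (derivative (f.reflect m)).eval 1) / f.eval 1).val, ZMod.val_lt _, ?_⟩
    rw [ZMod.natCast_zmod_val, div_mul_cancel₀ _ h1]
  obtain ⟨G, hG⟩ : ∃ G : (ZMod p)[X], G = X ^ m * f - X ^ s * f.reflect m := ⟨_, rfl⟩
  have hG0 : G.eval 1 = 0 := by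
    rw [hG]
    simp only [eval_sub, eval_mul, eval_pow, eval_X, one_pow, one_mul]
    rw [hr1, sub_self]
  have hG1 : (derivative G).eval 1 = 0 := by
    have e := congrArg (fun q => q.eval (1 : ZMod p)) (X_mul_derivative m f)
    have e' := congrArg (fun q => q.eval (1 : ZMod p)) (X_mul_derivative s (f.reflect m))
    simp only [eval_mul, eval_X, one_mul, eval_pow, one_pow, eval_add, eval_C] at e e'
    rw [hG, derivative_sub, eval_sub, e, e', hr1, hs]
    ring
  have hG2 := sq_dvd hG0 hG1
  have key : (X - 1 : (ZMod p)[X]) ^ (2 * m + 2) ∣ G := by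
    by_cases hGz : G = 0
    · rw [hGz]
      exact dvd_zero _
    · obtain ⟨W, hW, hWn⟩ := exists_eq_pow_rootMultiplicity_mul_and_not_dvd G hGz 1
      obtain ⟨l, hl⟩ : ∃ l, l = G.rootMultiplicity 1 := ⟨_, rfl⟩
      rw [← hl, C_1] at hW
      rw [C_1] at hWn
      have hl2 : 2 ≤ l := by
        rw [hl, le_rootMultiplicity_iff hGz, C_1]
        exact hG2
      have hW1 : W.eval 1 ≠ 0 := by
        intro h
        apply hWn
        have := dvd_iff_isRoot.2 h
        rwa [C_1] at this
      by_cases hlm : l ≤ 2 * m + 1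
      · have hall : ∀ a : ℕ, 0 < a → a + 2 ≤ p → Odd l ∧ hsa p a l = 0 := by
          intro a ha ha'
          obtain ⟨i, r, hr, hdiv⟩ := hrel a ha ha'
          exact hcore p hp2 a ha ha' m s i l f W r hf h1 hr hdiv (by rw [← hG]; exact hW)
            hW1 hl2 (by omega)
        have hodd := (hall 1 (by omega) (by omega)).1
        have h3 : 3 ≤ l := by
          obtain ⟨t, ht⟩ := hodd
          omega
        obtain ⟨a, ha, ha', hne⟩ := hreg l hodd h3 hlm
        exact absurd (hall a ha ha').2 hne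
      · rw [hW]
        exact (pow_dvd_pow _ (by omega)).mul_right _
  rw [hG] at key
  have hms := wronskian hf h0 hm key
  have hsm : s = m := by
    have h2 := (ZMod.natCast_eq_natCast_iff' m s p).1 hms
    rw [Nat.mod_eq_of_lt (by omega), Nat.mod_eq_of_lt hsp] at h2
    exact h2.symm
  rw [hsm, ← mul_sub] at key
  have h3 := (cop (F := ZMod p) (2 * m + 2) m).dvd_of_dvd_mul_left key
  have h4 : (f - f.reflect m).natDegree < ((X - 1 : (ZMod p)[X]) ^ (2 * m + 2)).natDegree := by
    rw [natDegree_X_sub_one_pow]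
    have h5 := natDegree_sub_le f (f.reflect m)
    have h6 := max_le hf hfr
    omega
  have h5 := eq_zero_of_dvd_of_natDegree_lt h3 h4
  exact (sub_eq_zero.1 h5).symm

end Pool.Agent.Y510.WQ
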